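import Pool.Agent.Helper354.CWidthMain

set_option autoImplicit false

/-!
Palindromic width of finitely generated solvable groups: palindromes modulo a normal subgroup.
-/

namespace Pool.Agent.T6.H25.PW

open Subgroup Pool.Agent.Helper354.CWidth
open scoped commutatorElement

universe u

section defs

variable {G : Type u} [Group G]

/-- The element of `G` represented by a word in the letters `X ∪ X⁻¹`: the letter `(s, true)`
stands for `s` and the letter `(s, false)` for its inverse. -/
def wordValue (X : Set G) (w : List (X × Bool)) : G :=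
  (w.map fun a => cond a.2 (a.1 : G) (a.1 : G)⁻¹).prod

/-- `g` is represented by a palindrome over `X`: a word in `X ∪ X⁻¹` that equals its reverse. -/
def IsPalindrome (X : Set G) (g : G) : Prop :=
  ∃ w : List (X × Bool), w.reverse = w ∧ wordValue X w = g

/-- The palindromic length: the least number of factors in an expression of `g` as a product of
elements represented by palindromes (infinite if there is none). -/
noncomputable def palLength (X : Set G) (g : G) : ℕ∞ :=
  ⨅ (l : List G) (_ : (∀ p ∈ l, IsPalindrome X p) ∧ l.prod = g), (l.length : ℕ∞)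

/-- The palindromic width: the supremum of the palindromic lengths. -/
noncomputable def palWidth (X : Set G) : ℕ∞ := ⨆ g : G, palLength X g

/-- product of `n` elements represented by palindromes -/
def PP (X : Set G) (n : ℕ) (g : G) : Prop :=
  ∃ l : List G, l.length = n ∧ (∀ p ∈ l, IsPalindrome X p) ∧ l.prod = g

/-- product of `n` palindromes modulo `N` -/
def B (X : Set G) (N : Subgroup G) (n : ℕ) (g : G) : Prop :=
  ∃ p, PP X n p ∧ p⁻¹ * g ∈ N

end defs

variable {G : Type u} [Group G] (X : Set G)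

theorem wordValue_nil : wordValue X [] = 1 := rfl

theorem wordValue_append (v w : List (X × Bool)) :
    wordValue X (v ++ w) = wordValue X v * wordValue X w := by
  simp [wordValue]

/-- the formal inverse letters, in the same order -/
def flip (w : List (X × Bool)) : List (X × Bool) := w.map fun a => (a.1, !a.2)

theorem wordValue_flip (w : List (X × Bool)) :
    wordValue X (flip X w) = (wordValue X w.reverse)⁻¹ := by
  induction w with
  | nil => simp [flip, wordValue]
  | cons a w ih =>
    rw [List.reverse_cons, wordValue_append, mul_inv_rev, ← ih]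
    have : wordValue X (flip X (a :: w)) = wordValue X (flip X [a]) * wordValue X (flip X w) := by
      rw [← wordValue_append]; rfl
    rw [this]
    congr 1
    rcases a with ⟨a, b⟩
    cases b <;> simp [flip, wordValue]

theorem pal_one : IsPalindrome X (1 : G) := ⟨[], rfl, rfl⟩

theorem pal_inv {p : G} (h : IsPalindrome X p) : IsPalindrome X p⁻¹ := by
  obtain ⟨w, hw, rfl⟩ := h
  refine ⟨flip X w, ?_, ?_⟩
  · rw [flip, ← List.map_reverse, hw]
  · rw [wordValue_flip, hw]

theorem pal_wrap {p : G} (h : IsPalindrome X p) (v : List (X × Bool)) :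
    IsPalindrome X (wordValue X v * p * wordValue X v.reverse) := by
  obtain ⟨w, hw, rfl⟩ := h
  refine ⟨v ++ w ++ v.reverse, ?_, ?_⟩
  · simp [hw]
  · rw [wordValue_append, wordValue_append]

theorem pal_gen {x : G} (hx : x ∈ X) : IsPalindrome X x :=
  ⟨[(⟨x, hx⟩, true)], rfl, by simp [wordValue]⟩

theorem pal_npow {x : G} (hx : x ∈ X) (n : ℕ) : IsPalindrome X (x ^ n) :=
  ⟨List.replicate n (⟨x, hx⟩, true), by simp, by simp [wordValue]⟩

theorem pal_zpow {x : G} (hx : x ∈ X) (n : ℤ) : IsPalindrome X (x ^ n) := by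
  rcases Int.eq_nat_or_neg n with ⟨m, rfl | rfl⟩
  · rw [zpow_natCast]; exact pal_npow X hx m
  · rw [zpow_neg, zpow_natCast]; exact pal_inv X (pal_npow X hx m)

theorem exists_word (hX : closure X = ⊤) (g : G) : ∃ v : List (X × Bool), wordValue X v = g := by
  have hg : g ∈ closure X := by rw [hX]; trivial
  induction hg using closure_induction with
  | mem x hx => exact ⟨[(⟨x, hx⟩, true)], by simp [wordValue]⟩
  | one => exact ⟨[], rfl⟩
  | mul a b _ _ ha hb =>
    obtain ⟨v, rfl⟩ := ha
    obtain ⟨w, rfl⟩ := hb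
    exact ⟨v ++ w, wordValue_append X v w⟩
  | inv a _ ha =>
    obtain ⟨v, rfl⟩ := ha
    exact ⟨flip X v.reverse, by rw [wordValue_flip, List.reverse_reverse]⟩

/-- there is `r` such that `g p r` is a palindrome for all palindromes `p` -/
theorem exists_rev (hX : closure X = ⊤) (g : G) :
    ∃ r : G, ∀ p, IsPalindrome X p → IsPalindrome X (g * p * r) := by
  obtain ⟨v, rfl⟩ := exists_word X hX g
  exact ⟨wordValue X v.reverse, fun p hp => pal_wrap X hp v⟩

variable {X}

theorem PP.zero : PP X 0 (1 : G) := ⟨[], rfl, by simp, rfl⟩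

theorem PP.mul {m n : ℕ} {g h : G} (hg : PP X m g) (hh : PP X n h) : PP X (m + n) (g * h) := by
  obtain ⟨l, hl, hp, rfl⟩ := hg
  obtain ⟨l', hl', hp', rfl⟩ := hh
  refine ⟨l ++ l', by simp [hl, hl'], ?_, by simp⟩
  intro p h
  rcases List.mem_append.1 h with h | h
  · exact hp p h
  · exact hp' p h

theorem PP.pal {p : G} (h : IsPalindrome X p) : PP X 1 p :=
  ⟨[p], rfl, by simpa using h, by simp⟩

theorem PP.one (n : ℕ) : PP X n (1 : G) := by
  induction n with
  | zero => exact PP.zero
  | succ n ih => simpa using ih.mul (PP.pal (pal_one X))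

theorem PP.mono {m n : ℕ} (h : m ≤ n) {g : G} (hg : PP X m g) : PP X n g := by
  obtain ⟨j, rfl⟩ := Nat.exists_eq_add_of_le h
  simpa using hg.mul (PP.one j)

theorem PP.inv {n : ℕ} {g : G} (hg : PP X n g) : PP X n g⁻¹ := by
  obtain ⟨l, hl, hp, rfl⟩ := hg
  refine ⟨(l.map (·⁻¹)).reverse, by simp [hl], ?_, ?_⟩
  · intro p h
    rw [List.mem_reverse, List.mem_map] at h
    obtain ⟨q, hq, rfl⟩ := h
    exact pal_inv X (hp q hq)
  · rw [List.prod_inv_reverse]

section mod

variable {N : Subgroup G} [hN : N.Normal]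

omit hN in
theorem B.of_PP {n : ℕ} {g : G} (h : PP X n g) : B X N n g := ⟨g, h, by simp⟩

omit hN in
theorem B.of_mem {g : G} (h : g ∈ N) : B X N 0 g := ⟨1, PP.zero, by simpa using h⟩

omit hN in
theorem B.mono {m n : ℕ} (h : m ≤ n) {g : G} (hg : B X N m g) : B X N n g := by
  obtain ⟨p, hp, h'⟩ := hg
  exact ⟨p, hp.mono h, h'⟩

omit hN in
theorem B.weaken {N' : Subgroup G} (h : N ≤ N') {n : ℕ} {g : G} (hg : B X N n g) : B X N' n g := by
  obtain ⟨p, hp, h'⟩ := hg
  exact ⟨p, hp, h h'⟩

include hN in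
theorem B.mul {m n : ℕ} {g h : G} (hg : B X N m g) (hh : B X N n h) : B X N (m + n) (g * h) := by
  obtain ⟨p, hp, hp'⟩ := hg
  obtain ⟨q, hq, hq'⟩ := hh
  refine ⟨p * q, hp.mul hq, ?_⟩
  have : (p * q)⁻¹ * (g * h) = (q⁻¹ * (p⁻¹ * g) * (q⁻¹)⁻¹) * (q⁻¹ * h) := by group
  rw [this]
  exact mul_mem (hN.conj_mem _ hp' _) hq'

include hN in
theorem B.inv {n : ℕ} {g : G} (hg : B X N n g) : B X N n g⁻¹ := by
  obtain ⟨p, hp, hp'⟩ := hg
  refine ⟨p⁻¹, hp.inv, ?_⟩
  have : (p⁻¹)⁻¹ * g⁻¹ = (p * (p⁻¹ * g) * p⁻¹)⁻¹ := by group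
  rw [this]
  exact inv_mem (hN.conj_mem _ hp' _)

include hN in
theorem B.conj {m n : ℕ} {g h : G} (hg : B X N n g) (hh : B X N m h) :
    B X N (m + n + m) (h * g * h⁻¹) := (hh.mul hg).mul hh.inv

include hN in
theorem B.comm {m n : ℕ} {g h : G} (hg : B X N n g) (hh : B X N m h) :
    B X N (n + m + n + m) ⁅g, h⁆ := ((hg.mul hh).mul hg.inv).mul hh.inv

end mod

/-- the commutator of a palindrome with any element is a product of three palindromes -/
theorem PP.comm_pal (hX : closure X = ⊤) {q : G} (hq : IsPalindrome X q) (g : G) :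
    PP X 3 ⁅q, g⁆ := by
  obtain ⟨r, hr⟩ := exists_rev X hX g
  have h1 := hr _ (pal_inv X hq)
  have h2 := pal_inv X (hr _ (pal_one X))
  have h3 : ⁅q, g⁆ = q * (g * q⁻¹ * r) * (g * 1 * r)⁻¹ := by
    rw [commutatorElement_def]; group
  rw [h3]
  exact ((PP.pal hq).mul (PP.pal h1)).mul (PP.pal h2)

end Pool.Agent.T6.H25.PW
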