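import Pool.Agent.T6.H25.PW.Trans

set_option autoImplicit false

universe u

namespace Pool.Agent.T6.H25.PW

open Subgroup

/-- a finite set as the range of a function on `Fin k` -/
theorem exists_fin {G : Type u} {X : Set G} (hfin : X.Finite) :
    ∃ x : Fin X.ncard → G, Set.range x = X := by
  have := hfin.to_subtype
  have h1 : Nat.card X = X.ncard := rfl
  let e : X ≃ Fin X.ncard := Finite.equivFinOfCardEq h1
  refine ⟨fun i => (e.symm i : G), ?_⟩
  ext y
  constructor
  · rintro ⟨i, rfl⟩
    exact (e.symm i).2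
  · intro hy
    exact ⟨e ⟨y, hy⟩, by simp⟩

theorem PP_of_bot {G : Type u} [Group G] {X : Set G} {N : Subgroup G} (hN : N = ⊥) {n : ℕ} {g : G}
    (h : B X N n g) : PP X n g := by
  obtain ⟨p, hp, hp'⟩ := h
  rw [hN, mem_bot, inv_mul_eq_one] at hp'
  rw [← hp']
  exact hp

end Pool.Agent.T6.H25.PW
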