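import Pool.Agent.T6.H25.PW.Basic

set_option autoImplicit false

namespace Pool.Agent.T6.H25.PW

open Subgroup Pool.Agent.Helper354.CWidth
open scoped commutatorElement

universe u

theorem abelian_explicit {E : Type*} [Group E] {k : ℕ} (x : Fin k → E)
    (hx : closure (Set.range x) = ⊤) (N : Subgroup E) [hN : N.Normal]
    (hab : ⁅N, N⁆ = ⊥) (g : E) (hg : g ∈ ⁅N, (⊤ : Subgroup E)⁆) :
    ∃ u : Fin k → E, g = (List.ofFn (fun l => ⁅x l, u l⁆)).prod := by
  have hcomm : ∀ a ∈ N, ∀ b ∈ N, a * b = b * a := by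
    intro a ha b hb
    have h := commutator_mem_commutator ha hb
    rw [hab, mem_bot, commutatorElement_eq_one_iff_mul_comm] at h
    exact h
  letI : CommGroup N := { (inferInstance : Group N) with
    mul_comm := fun a b => Subtype.ext (hcomm a a.2 b b.2) }
  have hmem : ∀ (g : E) (a : N), ⁅g, (a : E)⁆ ∈ N := by
    intro g a
    rw [commutatorElement_def]
    exact mul_mem (hN.conj_mem _ a.2 g) (inv_mem a.2)
  let τ : E → (N →* N) := fun g =>
    { toFun := fun a => ⟨⁅g, (a : E)⁆, hmem g a⟩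
      map_one' := by ext; simp
      map_mul' := by
        intro a b
        ext
        show ⁅g, ((a * b : N) : E)⁆ = ⁅g, (a : E)⁆ * ⁅g, (b : E)⁆
        have h1 : ⁅g, (a : E)⁆ * ⁅g, (b : E)⁆ =
            (g * a * g⁻¹) * ((a : E)⁻¹ * ⁅g, (b : E)⁆) := by
          rw [commutatorElement_def g (a : E)]; group
        rw [h1, hcomm _ (inv_mem a.2) _ (hmem g b)]
        simp only [commutatorElement_def, Subgroup.coe_mul]
        group }
  have hτ : ∀ g h a, τ (g * h) a = τ g (MulAut.conjNormal h a) * τ h a := by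
    intro g h a
    ext
    show ⁅g * h, (a : E)⁆ = ⁅g, ((MulAut.conjNormal h a : N) : E)⁆ * ⁅h, (a : E)⁆
    rw [MulAut.conjNormal_apply]
    simp only [commutatorElement_def]
    group
  have hfox := fox τ hτ x hx
  have hle : ⁅N, (⊤ : Subgroup E)⁆ ≤ ((foxHom τ x).range).map N.subtype := by
    rw [commutator_le]
    intro a ha g _
    rw [← commutatorElement_inv]
    apply inv_mem
    exact ⟨τ g ⟨a, ha⟩, hfox g ⟨a, ha⟩, rfl⟩
  obtain ⟨y, ⟨u, hu⟩, hy⟩ := hle hg
  refine ⟨fun l => (u l : E), ?_⟩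
  rw [← hy, ← hu]
  show N.subtype (∏ l, τ (x l) (u l)) = _
  rw [← List.prod_ofFn, map_list_prod, List.map_ofFn]
  rfl

variable {G : Type u} [Group G] {k : ℕ} {X : Set G}

theorem PP.ofFn {n k : ℕ} (c : Fin k → G) (hc : ∀ l, PP X n (c l)) :
    PP X (n * k) (List.ofFn c).prod := by
  induction k with
  | zero => simpa using PP.one (X := X) (0 : ℕ)
  | succ k ih =>
    rw [List.ofFn_succ, List.prod_cons, Nat.mul_succ, Nat.add_comm]
    exact (hc 0).mul (ih _ fun l => hc l.succ)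

theorem comD (hX : closure X = ⊤) (x : Fin k → G) (hx : closure (Set.range x) = ⊤)
    (hxX : ∀ l, x l ∈ X) (D : Subgroup G) [D.Normal] {g : G}
    (hg : g ∈ ⁅D, (⊤ : Subgroup G)⁆) : B X ⁅D, D⁆ (3 * k) g := by
  set f := QuotientGroup.mk' ⁅D, D⁆ with hf
  haveI : (D.map f).Normal := Subgroup.Normal.map ‹_› f (QuotientGroup.mk'_surjective _)
  obtain ⟨u, hu⟩ := abelian_explicit (fun i => f (x i)) (gen_quot x hx _) (D.map f)
    (by rw [← Subgroup.map_commutator, Subgroup.map_eq_bot_iff, hf, QuotientGroup.ker_mk'])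
    (f g) (by
      have h1 : (⊤ : Subgroup (G ⧸ ⁅D, D⁆)) = (⊤ : Subgroup G).map f := by
        rw [← MonoidHom.range_eq_map]
        exact (MonoidHom.range_eq_top.mpr (QuotientGroup.mk'_surjective _)).symm
      rw [h1, ← Subgroup.map_commutator]
      exact Subgroup.mem_map_of_mem _ hg)
  choose v hv using fun l => QuotientGroup.mk'_surjective ⁅D, D⁆ (u l)
  refine ⟨(List.ofFn (fun l => ⁅x l, v l⁆)).prod,
    PP.ofFn _ fun l => PP.comm_pal hX (pal_gen X (hxX l)) _, ?_⟩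
  have h2 : f (List.ofFn (fun l => ⁅x l, v l⁆)).prod = f g := by
    rw [hu, map_list_prod, List.map_ofFn]
    congr 2
    funext l
    show f ⁅x l, v l⁆ = _
    rw [map_commutatorElement]
    congr 1
    exact hv l
  exact QuotientGroup.eq.mp h2

theorem comm_bound (hX : closure X = ⊤) (x : Fin k → G) (hx : closure (Set.range x) = ⊤)
    (hxX : ∀ l, x l ∈ X) (D : Subgroup G) [D.Normal] {P : ℕ} (hP : ∀ g, B X D P g) (a b : G) :
    B X ⁅D, D⁆ (8 * P + 6 * k) ⁅a, b⁆ := by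
  obtain ⟨p, hp, hp'⟩ := hP a
  obtain ⟨q, hq, hq'⟩ := hP b
  have key : ⁅a, b⁆ = (p * ⁅p⁻¹ * a, b⁆ * p⁻¹) * ⁅p, q⁆ * (q * ⁅p, q⁻¹ * b⁆ * q⁻¹) := by
    simp only [commutatorElement_def]; group
  have h1 : B X ⁅D, D⁆ (3 * k) ⁅p⁻¹ * a, b⁆ :=
    comD hX x hx hxX D (commutator_mem_commutator hp' (mem_top _))
  have h2 : B X ⁅D, D⁆ (3 * k) ⁅p, q⁻¹ * b⁆ := by
    refine comD hX x hx hxX D ?_
    rw [← commutatorElement_inv]
    exact inv_mem (commutator_mem_commutator hq' (mem_top _))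
  have hpB : B X ⁅D, D⁆ P p := B.of_PP hp
  have hqB : B X ⁅D, D⁆ P q := B.of_PP hq
  have h3 := ((h1.conj hpB).mul (hpB.comm hqB)).mul (h2.conj hqB)
  rw [key]
  refine h3.mono ?_
  omega

theorem PC_bound {N : Subgroup G} [N.Normal] {M n : ℕ} (hM : ∀ a b : G, B X N M ⁅a, b⁆) {w : G}
    (hw : PC n w) : B X N (n * M) w := by
  obtain ⟨l, rfl, rfl⟩ := hw
  induction l with
  | nil => simpa using B.of_PP (N := N) (PP.zero (X := X))
  | cons p l ih =>
    rw [List.map_cons, List.prod_cons, List.length_cons, Nat.succ_mul, Nat.add_comm]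
    exact (hM p.1 p.2).mul ih

theorem step (hX : closure X = ⊤) (x : Fin k → G) (hx : closure (Set.range x) = ⊤)
    (hxX : ∀ l, x l ∈ X) (K D : Subgroup G) [D.Normal] (hKD : K ≤ D) {P n : ℕ}
    (hP : ∀ g, B X K P g)
    (hw : ∀ z ∈ K, ∃ w, PC n w ∧ w⁻¹ * z ∈ ⁅D, (⊤ : Subgroup G)⁆) (g : G) :
    B X ⁅D, D⁆ (P + (n * (8 * P + 6 * k) + 3 * k)) g := by
  obtain ⟨p, hp, hp'⟩ := hP g
  obtain ⟨w, hw1, hw2⟩ := hw _ hp'
  have h1 : B X ⁅D, D⁆ (n * (8 * P + 6 * k)) w :=
    PC_bound (fun a b => comm_bound hX x hx hxX D (fun g => (hP g).weaken hKD) a b) hw1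
  have h2 : B X ⁅D, D⁆ (3 * k) (w⁻¹ * (p⁻¹ * g)) := comD hX x hx hxX D hw2
  have h3 : g = p * (w * (w⁻¹ * (p⁻¹ * g))) := by group
  rw [h3]
  exact (B.of_PP hp).mul (h1.mul h2)

/-- the subgroup `[D, G] D²` -/
def KK (D : Subgroup G) : Subgroup G :=
  ⁅D, (⊤ : Subgroup G)⁆ ⊔ closure {y | ∃ z ∈ D, y = z ^ 2}

theorem KK_le (D : Subgroup G) [D.Normal] : KK D ≤ D := by
  refine sup_le (commutator_le_left _ _) ?_
  rw [closure_le]
  rintro _ ⟨z, hz, rfl⟩
  exact pow_mem hz 2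

theorem root_PC (x : Fin k → G) (hx : closure (Set.range x) = ⊤) (E : Subgroup G) [E.Normal]
    {s : G} (hs : s ∈ KK ⁅E, E⁆) :
    ∃ w, PC (2 * k) w ∧ w⁻¹ * s ∈ ⁅⁅E, E⁆, (⊤ : Subgroup G)⁆ := by
  obtain ⟨t, ht, ht'⟩ := exists_root _ hs
  obtain ⟨w, hw, hw'⟩ := square_lift x hx E ht
  refine ⟨w, hw, ?_⟩
  have : w⁻¹ * s = (w⁻¹ * t ^ 2) * ((t ^ 2)⁻¹ * s) := by group
  rw [this]
  exact mul_mem hw' ht'

theorem base1 (x : Fin k → G) (hx : closure (Set.range x) = ⊤) (hxX : ∀ l, x l ∈ X) (g : G) :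
    B X (derivedSeries G 1) k g := by
  have h1 : ∃ a : Fin k → ℤ, Abelianization.of g = ∏ l, Abelianization.of (x l) ^ a l := by
    have hg : g ∈ closure (Set.range x) := by rw [hx]; trivial
    induction hg using closure_induction with
    | mem y hy =>
      obtain ⟨l, rfl⟩ := hy
      refine ⟨Pi.single l 1, ?_⟩
      rw [Finset.prod_eq_single l]
      · simp
      · intro m _ hm
        rw [Pi.single_eq_of_ne hm, zpow_zero]
      · simp
    | one => exact ⟨0, by simp⟩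
    | mul a b _ _ ha hb =>
      obtain ⟨u, hu⟩ := ha
      obtain ⟨v, hv⟩ := hb
      refine ⟨u + v, ?_⟩
      rw [map_mul, hu, hv, ← Finset.prod_mul_distrib]
      simp only [Pi.add_apply, zpow_add]
    | inv a _ ha =>
      obtain ⟨u, hu⟩ := ha
      refine ⟨-u, ?_⟩
      rw [map_inv, hu, ← Finset.prod_inv_distrib]
      simp only [Pi.neg_apply, zpow_neg]
  obtain ⟨a, ha⟩ := h1
  refine ⟨(List.ofFn fun l => x l ^ a l).prod, ?_, ?_⟩
  · have := PP.ofFn (X := X) (n := 1) (fun l => x l ^ a l) fun l => PP.pal (pal_zpow X (hxX l) _)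
    simpa using this
  · have h2 : Abelianization.of (List.ofFn fun l => x l ^ a l).prod = Abelianization.of g := by
      rw [ha, map_list_prod, List.map_ofFn, List.prod_ofFn]
      simp
    have h3 : (QuotientGroup.mk (List.ofFn fun l => x l ^ a l).prod : G ⧸ commutator G) =
      QuotientGroup.mk g := h2
    have h4 := QuotientGroup.eq.mp h3
    rw [derivedSeries_one]
    exact h4

/-- products of boundedly many palindromes modulo the derived series, uniformly -/
theorem main (k d : ℕ) : ∃ N : ℕ, ∀ (G : Type u) [Group G] (X : Set G) (x : Fin k → G),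
    closure X = ⊤ → closure (Set.range x) = ⊤ → (∀ l, x l ∈ X) →
    (∀ i, 3 ≤ i → i < d → derivedSeries G i ≤ KK (derivedSeries G i)) →
    ∀ g, B X (derivedSeries G d) N g := by
  induction d with
  | zero => exact ⟨0, fun G _ X x _ _ _ _ g => B.of_mem (by simp)⟩
  | succ d ih =>
    obtain ⟨P, hP⟩ := ih
    rcases Nat.lt_or_ge d 1 with h0 | h1
    · obtain rfl : d = 0 := by omega
      exact ⟨k, fun G _ X x _ hx hxX _ g => base1 x hx hxX g⟩
    rcases Nat.lt_or_ge d 2 with h1' | h2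
    · obtain rfl : d = 1 := by omega
      refine ⟨_, fun G _ X x hX hx hxX hyp g => step hX x hx hxX _ (derivedSeries G 1) le_rfl
        (hP G X x hX hx hxX fun i h h' => hyp i h (by omega)) (n := k)
        (fun z hz => v1_lift x hx hz) g⟩
    rcases Nat.lt_or_ge d 3 with h2' | h3
    · obtain rfl : d = 2 := by omega
      refine ⟨_, fun G _ X x hX hx hxX hyp g => step hX x hx hxX _ (derivedSeries G 2) le_rfl
        (hP G X x hX hx hxX fun i h h' => hyp i h (by omega)) (n := k * k)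
        (fun z hz => v2_lift x hx (derivedSeries G 1) rfl hz) g⟩
    · obtain ⟨e, rfl⟩ := Nat.exists_eq_add_of_le' h1
      refine ⟨_, fun G _ X x hX hx hxX hyp g => step hX x hx hxX _ (derivedSeries G (e + 1)) le_rfl
        (hP G X x hX hx hxX fun i h h' => hyp i h (by omega)) (n := 2 * k)
        (fun z hz => root_PC x hx (derivedSeries G e) (hyp (e + 1) h3 (by omega) hz)) g⟩

end Pool.Agent.T6.H25.PW
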