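import Pool.Agent.T6.H25.PW.Steps

set_option autoImplicit false

namespace Pool.Agent.T6.H25.PW

open Subgroup Pool.Agent.Helper354.CWidth
open scoped commutatorElement

universe u

variable {G : Type u} [Group G] {k : ℕ} {X : Set G}

theorem palLength_le {n : ℕ} {g : G} (h : PP X n g) : palLength X g ≤ n := by
  obtain ⟨l, rfl, hp, hg⟩ := h
  exact iInf₂_le l ⟨hp, hg⟩

theorem palWidth_le {n : ℕ} (h : ∀ g : G, PP X n g) : palWidth X ≤ n :=
  iSup_le fun g => palLength_le (h g)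

theorem exists_of_lt (h : palWidth X < ⊤) : ∃ n : ℕ, ∀ g : G, PP X n g := by
  obtain ⟨n, hn⟩ := ENat.ne_top_iff_exists.1 h.ne
  refine ⟨n, fun g => ?_⟩
  have h1 : palLength X g ≤ (n : ℕ∞) := by
    rw [hn]; exact le_iSup (fun g => palLength X g) g
  have h2 : palLength X g < ((n + 1 : ℕ) : ℕ∞) :=
    lt_of_le_of_lt h1 (by exact_mod_cast Nat.lt_succ_self n)
  unfold palLength at h2
  rw [iInf_lt_iff] at h2
  obtain ⟨l, hl⟩ := h2
  rw [iInf_lt_iff] at hl
  obtain ⟨⟨hp, hg⟩, hl⟩ := hl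
  have h3 : l.length < n + 1 := by exact_mod_cast hl
  exact PP.mono (by omega) ⟨l, rfl, hp, hg⟩

/-- every element is a product of palindromes -/
theorem exists_PP (hX : closure X = ⊤) (g : G) : ∃ n, PP X n g := by
  have hg : g ∈ closure X := by rw [hX]; trivial
  induction hg using closure_induction with
  | mem x hx => exact ⟨1, PP.pal (pal_gen X hx)⟩
  | one => exact ⟨0, PP.zero⟩
  | mul a b _ _ ha hb =>
    obtain ⟨m, hm⟩ := ha
    obtain ⟨n, hn⟩ := hb
    exact ⟨m + n, hm.mul hn⟩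
  | inv a _ ha =>
    obtain ⟨m, hm⟩ := ha
    exact ⟨m, hm.inv⟩

/-- passing to a subgroup of finite index -/
theorem fin_step (hX : closure X = ⊤) (K D : Subgroup G) [K.Normal]
    (hK : K.relIndex D ≠ 0) {P : ℕ} (hP : ∀ g, B X D P g) : ∃ P', ∀ g, B X K P' g := by
  haveI : (K.subgroupOf D).FiniteIndex := ⟨hK⟩
  haveI : Finite (D ⧸ K.subgroupOf D) := inferInstance
  haveI := Fintype.ofFinite (D ⧸ K.subgroupOf D)
  choose n hn using fun g : G => exists_PP hX g
  refine ⟨P + Finset.univ.sup (fun q : D ⧸ K.subgroupOf D => n (q.out : D)), fun g => ?_⟩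
  obtain ⟨p, hp, hp'⟩ := hP g
  set z : D := ⟨p⁻¹ * g, hp'⟩ with hz
  set q : D ⧸ K.subgroupOf D := QuotientGroup.mk z with hq
  have h1 : (q.out : D)⁻¹ * z ∈ K.subgroupOf D :=
    QuotientGroup.eq.mp (by rw [hq]; exact QuotientGroup.out_eq' _)
  have h2 : ((q.out : D) : G)⁻¹ * (p⁻¹ * g) ∈ K := h1
  have h3 : B X K (Finset.univ.sup (fun q : D ⧸ K.subgroupOf D => n (q.out : D))) (p⁻¹ * g) := by
    refine B.mono (Finset.le_sup (f := fun q : D ⧸ K.subgroupOf D => n (q.out : D))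
      (Finset.mem_univ q)) ⟨_, hn _, h2⟩
  have h4 : g = p * (p⁻¹ * g) := by group
  rw [h4]
  exact (B.of_PP hp).mul h3

instance KK_normal (D : Subgroup G) [D.Normal] : (KK D).Normal := by
  haveI := closure_pow_normal D 2
  unfold KK
  infer_instance

/-- finiteness version of the main induction -/
theorem main_fin (hX : closure X = ⊤) (x : Fin k → G) (hx : closure (Set.range x) = ⊤)
    (hxX : ∀ l, x l ∈ X) (d : ℕ)
    (hyp : ∀ i, 3 ≤ i → i < d → (KK (derivedSeries G i)).relIndex (derivedSeries G i) ≠ 0) :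
    ∃ N : ℕ, ∀ g, B X (derivedSeries G d) N g := by
  induction d with
  | zero => exact ⟨0, fun g => B.of_mem (by simp)⟩
  | succ d ih =>
    obtain ⟨P, hP⟩ := ih fun i h h' => hyp i h (by omega)
    rcases Nat.lt_or_ge d 3 with h2 | h3
    · obtain ⟨N, hN⟩ := main.{u} k (d + 1)
      exact ⟨N, hN G X x hX hx hxX fun i h h' => by omega⟩
    · obtain ⟨P', hP'⟩ := fin_step hX (KK (derivedSeries G d)) (derivedSeries G d)
        (hyp d h3 (by omega)) hP
      obtain ⟨e, rfl⟩ := Nat.exists_eq_add_of_le' (show 1 ≤ d by omega)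
      exact ⟨_, step hX x hx hxX (KK (derivedSeries G (e + 1))) (derivedSeries G (e + 1)) (KK_le _)
        hP' (n := 2 * k) (fun z hz => root_PC x hx (derivedSeries G e) hz)⟩

/-- quantitative version of the main induction -/
theorem main_quant (k d m : ℕ) : ∃ N : ℕ, ∀ (G : Type u) [Group G] (X : Set G) (x : Fin k → G),
    closure X = ⊤ → closure (Set.range x) = ⊤ → (∀ l, x l ∈ X) →
    (∀ i, 3 ≤ i → i < d → ∀ g ∈ derivedSeries G i, B X (KK (derivedSeries G i)) m g) →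
    ∀ g, B X (derivedSeries G d) N g := by
  induction d with
  | zero => exact ⟨0, fun G _ X x _ _ _ _ g => B.of_mem (by simp)⟩
  | succ d ih =>
    obtain ⟨P, hP⟩ := ih
    rcases Nat.lt_or_ge d 3 with h2 | h3
    · obtain ⟨N, hN⟩ := main.{u} k (d + 1)
      exact ⟨N, fun G _ X x hX hx hxX _ => hN G X x hX hx hxX fun i h h' => by omega⟩
    · obtain ⟨e, rfl⟩ := Nat.exists_eq_add_of_le' (show 1 ≤ d by omega)
      refine ⟨(P + m) + (2 * k * (8 * (P + m) + 6 * k) + 3 * k),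
        fun G _ X x hX hx hxX hyp => ?_⟩
      refine step hX x hx hxX (KK (derivedSeries G (e + 1))) (derivedSeries G (e + 1)) (KK_le _)
        (fun g => ?_) (n := 2 * k) (fun z hz => root_PC x hx (derivedSeries G e) hz)
      obtain ⟨p, hp, hp'⟩ := hP G X x hX hx hxX (fun i h h' => hyp i h (by omega)) g
      have h1 := hyp (e + 1) h3 (by omega) _ hp'
      have h4 : g = p * (p⁻¹ * g) := by group
      rw [h4]
      exact (B.of_PP hp).mul h1

theorem PP_of_palLength {n : ℕ} {g : G} (h : palLength X g ≤ n) : PP X n g := by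
  have h2 : palLength X g < ((n + 1 : ℕ) : ℕ∞) :=
    lt_of_le_of_lt h (by exact_mod_cast Nat.lt_succ_self n)
  unfold palLength at h2
  rw [iInf_lt_iff] at h2
  obtain ⟨l, hl⟩ := h2
  rw [iInf_lt_iff] at hl
  obtain ⟨⟨hp, hg⟩, hl⟩ := hl
  have h3 : l.length < n + 1 := by exact_mod_cast hl
  exact PP.mono (by omega) ⟨l, rfl, hp, hg⟩

/-! ### quotients -/

theorem pal_map {H : Type u} [Group H] (f : G →* H) {p : G} (h : IsPalindrome X p) :
    IsPalindrome (f '' X) (f p) := by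
  obtain ⟨w, hw, rfl⟩ := h
  refine ⟨w.map fun a => (⟨f a.1, Set.mem_image_of_mem f a.1.2⟩, a.2), ?_, ?_⟩
  · rw [← List.map_reverse, hw]
  · unfold wordValue
    rw [map_list_prod, List.map_map, List.map_map]
    congr 1
    refine List.map_congr_left fun a _ => ?_
    rcases a with ⟨a, b⟩
    cases b <;> simp

theorem pal_lift {H : Type u} [Group H] (f : G →* H) {q : H} (h : IsPalindrome (f '' X) q) :
    ∃ p, IsPalindrome X p ∧ f p = q := by
  obtain ⟨w, hw, rfl⟩ := h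
  have hs : ∀ y : (f '' X), ∃ x : X, f x = y := by
    rintro ⟨_, x, hx, rfl⟩
    exact ⟨⟨x, hx⟩, rfl⟩
  choose s hs using hs
  refine ⟨wordValue X (w.map fun a => (s a.1, a.2)), ⟨_, ?_, rfl⟩, ?_⟩
  · rw [← List.map_reverse, hw]
  · unfold wordValue
    rw [map_list_prod, List.map_map, List.map_map]
    congr 1
    refine List.map_congr_left fun a _ => ?_
    rcases a with ⟨a, b⟩
    cases b <;> simp [hs]

theorem PP_map {H : Type u} [Group H] (f : G →* H) {n : ℕ} {p : G} (h : PP X n p) :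
    PP (f '' X) n (f p) := by
  obtain ⟨l, rfl, hp, rfl⟩ := h
  refine ⟨l.map f, by simp, ?_, by rw [map_list_prod]⟩
  intro q hq
  obtain ⟨p, hp', rfl⟩ := List.mem_map.1 hq
  exact pal_map f (hp p hp')

theorem PP_lift {H : Type u} [Group H] (f : G →* H) {n : ℕ} {q : H} (h : PP (f '' X) n q) :
    ∃ p, PP X n p ∧ f p = q := by
  obtain ⟨l, rfl, hp, rfl⟩ := h
  induction l with
  | nil => exact ⟨1, PP.zero, by simp⟩
  | cons a l ih =>
    obtain ⟨p, hp1, hp2⟩ := ih fun p h => hp p (List.mem_cons_of_mem _ h)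
    obtain ⟨r, hr1, hr2⟩ := pal_lift f (hp a List.mem_cons_self)
    refine ⟨r * p, ?_, by rw [map_mul, hr2, hp2, List.prod_cons]⟩
    rw [List.length_cons, Nat.add_comm]
    exact (PP.pal hr1).mul hp1

theorem B_of_quot (K : Subgroup G) [K.Normal] {n : ℕ}
    (h : ∀ q : G ⧸ K, PP (QuotientGroup.mk' K '' X) n q) (g : G) : B X K n g := by
  obtain ⟨p, hp, hp'⟩ := PP_lift (QuotientGroup.mk' K) (h (QuotientGroup.mk' K g))
  exact ⟨p, hp, QuotientGroup.eq.mp hp'⟩

theorem B_of_palLength (K : Subgroup G) [K.Normal] {n : ℕ} {g : G}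
    (h : palLength (QuotientGroup.mk' K '' X) (QuotientGroup.mk' K g) ≤ n) : B X K n g := by
  obtain ⟨p, hp, hp'⟩ := PP_lift (QuotientGroup.mk' K) (PP_of_palLength h)
  exact ⟨p, hp, QuotientGroup.eq.mp hp'⟩

/-- the reduction -/
theorem reduction_PW (hX : closure X = ⊤) (x : Fin k → G) (hx : closure (Set.range x) = ⊤)
    (hxX : ∀ l, x l ∈ X) (d : ℕ) (hd : derivedSeries G (d + 2) = ⊥) (K : Subgroup G) [K.Normal]
    (hK : K ≤ KK (derivedSeries G (d + 1))) :
    palWidth X < ⊤ ↔ palWidth (QuotientGroup.mk' K '' X) < ⊤ := by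
  constructor
  · intro h
    obtain ⟨n, hn⟩ := exists_of_lt h
    refine lt_of_le_of_lt (palWidth_le (n := n) fun q => ?_) (WithTop.coe_lt_top n)
    obtain ⟨g, rfl⟩ := QuotientGroup.mk'_surjective K q
    exact PP_map _ (hn g)
  · intro h
    obtain ⟨n, hn⟩ := exists_of_lt h
    have h1 := step hX x hx hxX K (derivedSeries G (d + 1)) (hK.trans (KK_le _))
      (B_of_quot K hn) (n := 2 * k) (fun z hz => root_PC x hx (derivedSeries G d) (hK hz))
    refine lt_of_le_of_lt (palWidth_le fun g => ?_) (WithTop.coe_lt_top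
      (n + (2 * k * (8 * n + 6 * k) + 3 * k)))
    obtain ⟨p, hp, hp'⟩ := h1 g
    have h2 : p⁻¹ * g ∈ derivedSeries G (d + 2) := hp'
    rw [hd, mem_bot] at h2
    rw [inv_mul_eq_one] at h2
    rw [← h2]
    exact hp

/-- 4-step groups -/
theorem four (k : ℕ) : ∃ N : ℕ, ∀ (G : Type u) [Group G] (X : Set G) (x : Fin k → G),
    closure X = ⊤ → closure (Set.range x) = ⊤ → (∀ l, x l ∈ X) → derivedSeries G 4 = ⊥ →
    (∀ a b : G, PP X N ⁅a, b⁆) ∧ (∀ g ∈ ⁅(⊤ : Subgroup G), (⊤ : Subgroup G)⁆, PP X N (g ^ 2)) := by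
  obtain ⟨P, hP⟩ := main.{u} k 3
  refine ⟨(2 ^ 1 * (k * k + 6 * k + 1) + 1) * (8 * P + 6 * k),
    fun G _ X x hX hx hxX h4 => ?_⟩
  have hB : ∀ {n : ℕ} {g : G}, B X (derivedSeries G 4) n g → PP X n g := by
    rintro n g ⟨p, hp, hp'⟩
    rw [h4, mem_bot, inv_mul_eq_one] at hp'
    rw [← hp']
    exact hp
  have hc : ∀ a b : G, B X (derivedSeries G 4) (8 * P + 6 * k) ⁅a, b⁆ := fun a b =>
    comm_bound hX x hx hxX (derivedSeries G 3) (hP G X x hX hx hxX fun i h h' => by omega) a b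
  refine ⟨fun a b => hB ((hc a b).mono ?_), fun g hg => hB ?_⟩
  · exact Nat.le_mul_of_pos_left _ (by omega)
  · obtain ⟨w, hw, hw'⟩ := pow_step x hx 1 (g := g) hg
    have h5 := PC_bound hc hw
    have h6 : B X (derivedSeries G 4) 0 (w⁻¹ * g ^ (2 ^ 1)) := B.of_mem hw'
    have h7 : g ^ 2 = w * (w⁻¹ * g ^ (2 ^ 1)) := by group
    rw [h7]
    refine (h5.mul h6).mono ?_
    rw [Nat.add_mul]
    omega

end Pool.Agent.T6.H25.PW
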